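import Pool.Agent.W712.WR.Stm

set_option autoImplicit false
set_option linter.all false

open MeasureTheory Set Filter Topology

namespace Pool.Agent.W85.WR

section
variable {n : ℕ}

theorem loc {g : ℝ → Fin n → ℝ} (hg : Measurable g) {B : ℝ} (hB : ∀ t, ‖g t‖ ≤ B) :
    LocallyIntegrable g volume := by
  refine (locallyIntegrable_const (1 + |B|) (μ := volume)).mono hg.aestronglyMeasurable
    (Eventually.of_forall fun t => ?_)
  rw [Real.norm_of_nonneg (by positivity)]
  have := hB t
  have := le_abs_self B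
  linarith

theorem ii {g : ℝ → Fin n → ℝ} (hg : Measurable g) {B : ℝ} (hB : ∀ t, ‖g t‖ ≤ B) (a b : ℝ) :
    IntervalIntegrable g volume a b :=
  intervalIntegrable_iff.mpr
    (((loc hg hB).integrableOn_isCompact isCompact_uIcc).mono_set uIoc_subset_uIcc)

theorem comp_meas {G : ℝ → (Fin n → ℝ) → (Fin n → ℝ)} {L : NNReal}
    (hm : ∀ x, Measurable (fun t => G t x)) (hL : ∀ t, LipschitzWith L (G t))
    {x : ℝ → Fin n → ℝ} (hx : Measurable x) : Measurable (fun t => G t (x t)) := by
  have h := measurable_uncurry_of_continuous_of_measurable (u := fun y t => G t y)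
    (fun t => (hL t).continuous) hm
  exact h.comp (hx.prodMk measurable_id)

/-- the Picard operator -/
noncomputable def op (G : ℝ → (Fin n → ℝ) → (Fin n → ℝ)) (x₀ : Fin n → ℝ) (x : ℝ → Fin n → ℝ)
    (t : ℝ) : Fin n → ℝ := x₀ + ∫ s in (0 : ℝ)..(max t 0), G s (x s)

theorem op_lip {G : ℝ → (Fin n → ℝ) → (Fin n → ℝ)} {L B : NNReal}
    (hm : ∀ x, Measurable (fun t => G t x)) (hL : ∀ t, LipschitzWith L (G t))
    (hB : ∀ t x, ‖G t x‖ ≤ B) (x₀ : Fin n → ℝ) {x : ℝ → Fin n → ℝ} (hx : Measurable x) :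
    LipschitzWith B (op G x₀ x) := by
  apply LipschitzWith.of_dist_le_mul
  intro t s
  have hg := comp_meas hm hL hx
  have h1 := ii hg (fun t => hB t (x t))
  unfold op
  rw [dist_add_left, dist_eq_norm, intervalIntegral.integral_interval_sub_left (h1 _ _) (h1 _ _)]
  refine (intervalIntegral.norm_integral_le_of_norm_le_const (C := (B : ℝ))
    (fun u _ => hB u (x u))).trans ?_
  apply mul_le_mul_of_nonneg_left _ B.coe_nonneg
  rw [Real.dist_eq]
  exact abs_max_sub_max_le_abs t s 0

/-- the iterates -/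
noncomputable def it (G : ℝ → (Fin n → ℝ) → (Fin n → ℝ)) (x₀ : Fin n → ℝ) : ℕ → ℝ → Fin n → ℝ
  | 0 => fun _ => x₀
  | k + 1 => op G x₀ (it G x₀ k)

theorem it_lip {G : ℝ → (Fin n → ℝ) → (Fin n → ℝ)} {L B : NNReal}
    (hm : ∀ x, Measurable (fun t => G t x)) (hL : ∀ t, LipschitzWith L (G t))
    (hB : ∀ t x, ‖G t x‖ ≤ B) (x₀ : Fin n → ℝ) (k : ℕ) : LipschitzWith B (it G x₀ k) := by
  induction k with
  | zero => exact LipschitzWith.of_dist_le_mul fun t s => by simp [it]; positivity
  | succ k ih => exact op_lip hm hL hB x₀ ih.continuous.measurable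

/-- the contraction estimate -/
theorem op_diff {G : ℝ → (Fin n → ℝ) → (Fin n → ℝ)} {L B : NNReal}
    (hm : ∀ x, Measurable (fun t => G t x)) (hL : ∀ t, LipschitzWith L (G t))
    (hB : ∀ t x, ‖G t x‖ ≤ B) (x₀ : Fin n → ℝ) {x y : ℝ → Fin n → ℝ} (hx : Measurable x)
    (hy : Measurable y) (A : ℝ) (hA : 0 ≤ A)
    (h : ∀ t, ‖x t - y t‖ ≤ A * Real.exp (2 * (L + 1) * max t 0)) (t : ℝ) :
    ‖op G x₀ x t - op G x₀ y t‖ ≤ A / 2 * Real.exp (2 * (L + 1) * max t 0) := by
  have hL0 : (0 : ℝ) ≤ L := L.coe_nonneg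
  set K : ℝ := 2 * (L + 1) with hK
  have hKpos : 0 < K := by rw [hK]; positivity
  set τ : ℝ := max t 0 with hτ
  have hτ0 : 0 ≤ τ := le_max_right _ _
  have h1 := ii (comp_meas hm hL hx) (fun t => hB t (x t)) 0 τ
  have h2 := ii (comp_meas hm hL hy) (fun t => hB t (y t)) 0 τ
  unfold op
  rw [add_sub_add_left_eq_sub, ← intervalIntegral.integral_sub h1 h2]
  have hder : ∀ s : ℝ, HasDerivAt (fun s => L * A / K * Real.exp (K * s))
      (L * A * Real.exp (K * s)) s := by
    intro s
    have h3 : HasDerivAt (fun s => K * s) K s := by simpa using (hasDerivAt_id s).const_mul K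
    have h4 := (h3.exp).const_mul (L * A / K)
    have e : (L : ℝ) * A / K * (Real.exp (K * s) * K) = L * A * Real.exp (K * s) := by
      rw [div_mul_eq_mul_div, div_eq_iff hKpos.ne']; ring
    rw [e] at h4
    exact h4
  have hcont : Continuous fun s : ℝ => L * A * Real.exp (K * s) := by fun_prop
  have hint : ∫ s in (0 : ℝ)..τ, L * A * Real.exp (K * s) =
      L * A / K * Real.exp (K * τ) - L * A / K * Real.exp (K * 0) :=
    intervalIntegral.integral_eq_sub_of_hasDerivAt (fun s _ => hder s)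
      (hcont.intervalIntegrable _ _)
  calc ‖∫ s in (0 : ℝ)..τ, (G s (x s) - G s (y s))‖
      ≤ ∫ s in (0 : ℝ)..τ, L * A * Real.exp (K * s) := by
        apply intervalIntegral.norm_integral_le_of_norm_le hτ0 _ (hcont.intervalIntegrable _ _)
        refine Eventually.of_forall fun s hs => ?_
        have h5 := (hL s).dist_le_mul (x s) (y s)
        rw [dist_eq_norm, dist_eq_norm] at h5
        have h6 := h s
        rw [max_eq_left hs.1.le] at h6
        calc ‖G s (x s) - G s (y s)‖ ≤ L * ‖x s - y s‖ := h5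
          _ ≤ L * (A * Real.exp (K * s)) := mul_le_mul_of_nonneg_left h6 hL0
          _ = L * A * Real.exp (K * s) := by ring
    _ = L * A / K * Real.exp (K * τ) - L * A / K * Real.exp (K * 0) := hint
    _ ≤ L * A / K * Real.exp (K * τ) := by
        have : 0 ≤ L * A / K * Real.exp (K * 0) := by positivity
        linarith
    _ ≤ A / 2 * Real.exp (K * τ) := by
        apply mul_le_mul_of_nonneg_right _ (Real.exp_pos _).le
        rw [div_le_iff₀ hKpos, hK]
        nlinarith

theorem it_diff {G : ℝ → (Fin n → ℝ) → (Fin n → ℝ)} {L B : NNReal}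
    (hm : ∀ x, Measurable (fun t => G t x)) (hL : ∀ t, LipschitzWith L (G t))
    (hB : ∀ t x, ‖G t x‖ ≤ B) (x₀ : Fin n → ℝ) (k : ℕ) (t : ℝ) :
    ‖it G x₀ (k + 1) t - it G x₀ k t‖ ≤ B / 2 ^ k * Real.exp (2 * (L + 1) * max t 0) := by
  have hL0 : (0 : ℝ) ≤ L := L.coe_nonneg
  have hB0 : (0 : ℝ) ≤ B := B.coe_nonneg
  induction k generalizing t with
  | zero =>
    have hm0 : 0 ≤ max t 0 := le_max_right _ _
    simp only [it, op, add_sub_cancel_left, pow_zero, div_one]
    refine (intervalIntegral.norm_integral_le_of_norm_le_const (C := (B : ℝ))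
      (fun u _ => hB u _)).trans ?_
    apply mul_le_mul_of_nonneg_left _ hB0
    rw [sub_zero, abs_of_nonneg hm0]
    have h1 := Real.add_one_le_exp (2 * (L + 1) * max t 0)
    nlinarith [mul_nonneg hL0 hm0]
  | succ k ih =>
    have h := op_diff hm hL hB x₀ (it_lip hm hL hB x₀ (k + 1)).continuous.measurable
      (it_lip hm hL hB x₀ k).continuous.measurable (B / 2 ^ k) (by positivity) ih t
    have e : (B : ℝ) / 2 ^ k / 2 = B / 2 ^ (k + 1) := by rw [pow_succ]; field_simp
    rw [e] at h
    exact h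

end

theorem cara : W712.WR.CaraStm := by
  intro n G L B hm hL hB x₀
  have hL0 : (0 : ℝ) ≤ L := L.coe_nonneg
  have hB0 : (0 : ℝ) ≤ B := B.coe_nonneg
  have hd : ∀ t k, dist (it G x₀ k t) (it G x₀ (k + 1) t) ≤
      (2 * B * Real.exp (2 * (L + 1) * max t 0)) / 2 / 2 ^ k := by
    intro t k
    rw [dist_comm, dist_eq_norm]
    refine (it_diff hm hL hB x₀ k t).trans (le_of_eq ?_)
    ring
  have hlim : ∀ t, ∃ z, Tendsto (fun k => it G x₀ k t) atTop (𝓝 z) := fun t =>
    cauchySeq_tendsto_of_complete (cauchySeq_of_le_geometric_two (hd t))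
  choose x hx using hlim
  have hxd : ∀ t k, ‖it G x₀ k t - x t‖ ≤ (2 * B * Real.exp (2 * (L + 1) * max t 0)) / 2 ^ k := by
    intro t k
    rw [← dist_eq_norm]
    exact dist_le_of_le_geometric_two_of_tendsto (hd t) (hx t) k
  have hxm : Measurable x := by
    apply measurable_of_tendsto_metrizable (fun k => (it_lip hm hL hB x₀ k).continuous.measurable)
    rw [tendsto_pi_nhds]
    exact hx
  -- the integral equation
  have heq : ∀ t, x t = op G x₀ x t := by
    intro t
    have h1 : Tendsto (fun k => it G x₀ (k + 1) t) atTop (𝓝 (x t)) :=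
      (hx t).comp (tendsto_add_atTop_nat 1)
    have h2 : Tendsto (fun k => it G x₀ (k + 1) t) atTop (𝓝 (op G x₀ x t)) := by
      rw [tendsto_iff_norm_sub_tendsto_zero]
      have h3 : Tendsto (fun k : ℕ => (2 * B / 2 ^ k) / 2 * Real.exp (2 * (L + 1) * max t 0)) atTop
          (𝓝 0) := by
        have h4 : Tendsto (fun k : ℕ => (B : ℝ) * Real.exp (2 * (L + 1) * max t 0) *
            (1 / 2 : ℝ) ^ k) atTop (𝓝 (B * Real.exp (2 * (L + 1) * max t 0) * 0)) :=
          (tendsto_pow_atTop_nhds_zero_of_lt_one (by norm_num) (by norm_num)).const_mul _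
        rw [mul_zero] at h4
        refine h4.congr fun k => ?_
        rw [one_div, inv_pow]
        field_simp
      refine squeeze_zero (fun _ => norm_nonneg _) (fun k => ?_) h3
      refine op_diff hm hL hB x₀ (it_lip hm hL hB x₀ k).continuous.measurable hxm
        (2 * B / 2 ^ k) (by positivity) (fun s => ?_) t
      refine (hxd s k).trans (le_of_eq ?_)
      ring
    exact tendsto_nhds_unique h1 h2
  have hxL : LipschitzWith B x := by
    have : x = op G x₀ x := funext heq
    rw [this]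
    exact op_lip hm hL hB x₀ hxm
  have hloc := loc (comp_meas hm hL hxm) (fun t => hB t (x t))
  refine ⟨x, ?_, hxL.lipschitzOnWith, ?_⟩
  · rw [heq 0]; simp [op]
  · filter_upwards [LocallyIntegrable.ae_hasDerivAt_integral hloc] with t ht htpos
    have h1 : HasDerivAt (fun t => x₀ + ∫ s in (0 : ℝ)..t, G s (x s)) (G t (x t)) t :=
      (ht 0).const_add x₀
    refine h1.congr_of_eventuallyEq ?_
    filter_upwards [lt_mem_nhds htpos] with s hs
    rw [heq s]
    simp only [op]
    rw [max_eq_left hs.le]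

end Pool.Agent.W85.WR
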